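import Mathlib

set_option autoImplicit false

open Finset

namespace H727R2.TP

section

variable {V : Type} [DecidableEq V] {r : ℕ}

/-- no monochromatic triangle inside `S` -/
def NoMono (c : V → V → Fin r) (S : Finset V) : Prop :=
  ∀ x ∈ S, ∀ y ∈ S, ∀ z ∈ S, x ≠ y → y ≠ z → x ≠ z → ¬ (c x y = c y z ∧ c x y = c x z)

omit [DecidableEq V] in
theorem NoMono.mono {c : V → V → Fin r} {S T : Finset V} (h : NoMono c S) (hT : T ⊆ S) :
    NoMono c T :=
  fun x hx y hy z hz => h x (hT hx) y (hT hy) z (hT hz)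

/-- symmetric colourings -/
def Symm (c : V → V → Fin r) : Prop := ∀ x y, c x y = c y x

/-- the `a`-neighbours of `v` in `S` -/
def nbh (c : V → V → Fin r) (S : Finset V) (v : V) (a : Fin r) : Finset V :=
  S.filter (fun w => w ≠ v ∧ c v w = a)

theorem nbh_sub {c : V → V → Fin r} {S : Finset V} {v : V} {a : Fin r} : nbh c S v a ⊆ S :=
  filter_subset _ _

theorem nbh_free {c : V → V → Fin r} {S : Finset V} (hn : NoMono c S) {v : V} (hv : v ∈ S)
    {a : Fin r} : ∀ x ∈ nbh c S v a, ∀ y ∈ nbh c S v a, x ≠ y → c x y ≠ a := by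
  intro x hx y hy hxy h
  simp only [nbh, mem_filter] at hx hy
  refine hn v hv x hx.1 y hy.1 (Ne.symm hx.2.1) hxy (Ne.symm hy.2.1) ⟨?_, ?_⟩
  · rw [hx.2.2, h]
  · rw [hx.2.2, hy.2.2]

theorem avoid_one {c : V → V → Fin r} (hs : Symm c) {S : Finset V} (hn : NoMono c S)
    (a : Fin r) (M : ℕ) (hM : M ^ 2 ≤ S.card) :
    ∃ T ⊆ S, M ≤ T.card ∧ ∀ x ∈ T, ∀ y ∈ T, x ≠ y → c x y ≠ a := by
  classical
  by_cases h : ∃ v ∈ S, M ≤ (nbh c S v a).card
  · obtain ⟨v, hv, h⟩ := h
    exact ⟨nbh c S v a, nbh_sub, h, nbh_free hn hv⟩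
  · push Not at h
    have hne : (S.powerset.filter (fun T => ∀ x ∈ T, ∀ y ∈ T, x ≠ y → c x y ≠ a)).Nonempty :=
      ⟨∅, by simp⟩
    obtain ⟨T, hT, hmax⟩ := exists_max_image _ (fun T => T.card) hne
    simp only [mem_filter, mem_powerset] at hT hmax
    refine ⟨T, hT.1, ?_, hT.2⟩
    have hcov : S ⊆ T.biUnion (fun t => insert t (nbh c S t a)) := by
      intro w hw
      simp only [mem_biUnion, mem_insert]
      by_cases hwT : w ∈ T
      · exact ⟨w, hwT, Or.inl rfl⟩
      · by_contra hcon
        push Not at hcon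
        have hadj : ∀ t ∈ T, c t w ≠ a := by
          intro t ht hta
          refine (hcon t ht).2 ?_
          simp only [nbh, mem_filter]
          exact ⟨hw, (hcon t ht).1, hta⟩
        have := hmax (insert w T) ⟨insert_subset hw hT.1, by
          intro x hx y hy hxy
          rcases mem_insert.1 hx with hx' | hx'
          · rcases mem_insert.1 hy with hy' | hy'
            · exact absurd (hx'.trans hy'.symm) hxy
            · rw [hs, hx']; exact hadj y hy'
          · rcases mem_insert.1 hy with hy' | hy'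
            · rw [hy']; exact hadj x hx'
            · exact hT.2 x hx' y hy' hxy⟩
        rw [card_insert_of_notMem hwT] at this
        omega
    have hcard : S.card ≤ T.card * M := by
      calc S.card ≤ _ := card_le_card hcov
        _ ≤ ∑ t ∈ T, (insert t (nbh c S t a)).card := card_biUnion_le
        _ ≤ ∑ t ∈ T, M := by
            refine sum_le_sum fun t ht => ?_
            have := h t (hT.1 ht)
            have h2 := card_insert_le t (nbh c S t a)
            omega
        _ = T.card * M := by simp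
    rcases Nat.eq_zero_or_pos M with h0 | h0
    · omega
    · have : M * M ≤ T.card * M := by
        calc M * M = M ^ 2 := by ring
          _ ≤ _ := hM.trans hcard
      exact Nat.le_of_mul_le_mul_right this h0

theorem avoid {c : V → V → Fin r} (hs : Symm c) (F : Finset (Fin r)) :
    ∀ (S : Finset V), NoMono c S → ∀ M : ℕ, M ^ (2 ^ F.card) ≤ S.card →
      ∃ T ⊆ S, M ≤ T.card ∧ ∀ x ∈ T, ∀ y ∈ T, x ≠ y → c x y ∉ F := by
  classical
  induction F using Finset.induction_on with
  | empty =>
    intro S _ M hM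
    refine ⟨S, Subset.refl _, ?_, by simp⟩
    simpa using hM
  | insert a F ha ih =>
    intro S hn M hM
    rw [card_insert_of_notMem ha, pow_succ, pow_mul] at hM
    obtain ⟨T, hTS, hTM, hTa⟩ := avoid_one hs hn a _ hM
    obtain ⟨T', h1, h2, h3⟩ := ih T (hn.mono hTS) M hTM
    refine ⟨T', h1.trans hTS, h2, ?_⟩
    intro x hx y hy hxy hmem
    rcases mem_insert.1 hmem with h | h
    · exact hTa x (h1 hx) y (h1 hy) hxy h
    · exact h3 x hx y hy hxy h

end

end H727R2.TP
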