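import Pool.Agent.H727R2.TP.Basic

set_option autoImplicit false

open Finset

namespace H727R2.TP

section

variable {V : Type} [DecidableEq V] {r : ℕ}

/-- common colour at `w` -/
def agree (c : V → V → Fin r) (S : Finset V) (v u : V) : Finset V :=
  S.filter (fun w => w ≠ v ∧ w ≠ u ∧ c v w = c u w)

/-- vertices that agree with `v` too often -/
def badSet (c : V → V → Fin r) (S : Finset V) (k : ℕ) (v : V) : Finset V :=
  S.filter (fun u => u ≠ v ∧ S.card ≤ 2 * k ^ 2 * (agree c S v u).card)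

theorem sum_agree {c : V → V → Fin r} (hs : Symm c) {S : Finset V} {K : ℕ}
    (hdeg : ∀ v ∈ S, ∀ a, K * (nbh c S v a).card ≤ S.card) (v : V) :
    K * ∑ u ∈ S.filter (fun u => u ≠ v), (agree c S v u).card ≤ S.card * S.card := by
  classical
  have h1 : ∑ u ∈ S.filter (fun u => u ≠ v), (agree c S v u).card
      ≤ ∑ w ∈ S, (nbh c S w (c w v)).card := by
    calc ∑ u ∈ S.filter (fun u => u ≠ v), (agree c S v u).card
        = ∑ u ∈ S.filter (fun u => u ≠ v), ∑ w ∈ S,
            (if w ≠ v ∧ w ≠ u ∧ c v w = c u w then 1 else 0) := by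
          refine sum_congr rfl fun u _ => ?_
          rw [agree, card_filter]
      _ = ∑ w ∈ S, ∑ u ∈ S.filter (fun u => u ≠ v),
            (if w ≠ v ∧ w ≠ u ∧ c v w = c u w then 1 else 0) := sum_comm
      _ ≤ ∑ w ∈ S, (nbh c S w (c w v)).card := by
          refine sum_le_sum fun w _ => ?_
          rw [← card_filter]
          refine card_le_card ?_
          intro u hu
          simp only [mem_filter] at hu
          simp only [nbh, mem_filter]
          refine ⟨hu.1.1, Ne.symm hu.2.2.1, ?_⟩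
          rw [hs w u, ← hu.2.2.2, hs v w]
  calc K * ∑ u ∈ S.filter (fun u => u ≠ v), (agree c S v u).card
      ≤ K * ∑ w ∈ S, (nbh c S w (c w v)).card := Nat.mul_le_mul_left _ h1
    _ = ∑ w ∈ S, K * (nbh c S w (c w v)).card := by rw [mul_sum]
    _ ≤ ∑ w ∈ S, S.card := sum_le_sum fun w hw => hdeg w hw _
    _ = S.card * S.card := by simp

theorem card_bad {c : V → V → Fin r} (hs : Symm c) {S : Finset V} {K k : ℕ}
    (hdeg : ∀ v ∈ S, ∀ a, K * (nbh c S v a).card ≤ S.card) (v : V) (hS : 0 < S.card) :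
    K * (badSet c S k v).card ≤ 2 * k ^ 2 * S.card := by
  classical
  have h1 : (badSet c S k v).card * S.card
      ≤ 2 * k ^ 2 * ∑ u ∈ S.filter (fun u => u ≠ v), (agree c S v u).card := by
    rw [mul_sum]
    calc (badSet c S k v).card * S.card = ∑ u ∈ badSet c S k v, S.card := by simp
      _ ≤ ∑ u ∈ badSet c S k v, 2 * k ^ 2 * (agree c S v u).card := by
          refine sum_le_sum fun u hu => ?_
          simp only [badSet, mem_filter] at hu
          exact hu.2.2
      _ ≤ _ := by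
          refine sum_le_sum_of_subset ?_
          intro u hu
          simp only [badSet, mem_filter] at hu
          simp only [mem_filter]
          exact ⟨hu.1, hu.2.1⟩
  have h2 := sum_agree hs hdeg v
  have h3 : (K * (badSet c S k v).card) * S.card ≤ (2 * k ^ 2 * S.card) * S.card := by
    calc (K * (badSet c S k v).card) * S.card = K * ((badSet c S k v).card * S.card) := by ring
      _ ≤ K * (2 * k ^ 2 * ∑ u ∈ S.filter (fun u => u ≠ v), (agree c S v u).card) :=
          Nat.mul_le_mul_left _ h1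
      _ = 2 * k ^ 2 * (K * ∑ u ∈ S.filter (fun u => u ≠ v), (agree c S v u).card) := by ring
      _ ≤ 2 * k ^ 2 * (S.card * S.card) := Nat.mul_le_mul_left _ h2
      _ = _ := by ring
  exact Nat.le_of_mul_le_mul_right h3 hS

/-- the greedy step -/
theorem exists_next {c : V → V → Fin r} (hs : Symm c) {S : Finset V} {k : ℕ} (hk : 1 ≤ k)
    (hdeg : ∀ v ∈ S, ∀ a, (8 * k ^ 3) * (nbh c S v a).card ≤ S.card)
    (hbig : 8 * k ^ 3 < S.card) (A : Finset V) (hA : A ⊆ S) (hAk : A.card ≤ k)
    (hgood : ∀ v ∈ A, ∀ u ∈ A, v ≠ u → u ∉ badSet c S k v) :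
    ∃ w ∈ S, w ∉ A ∧ (∀ v ∈ A, w ∉ badSet c S k v) ∧
      (∀ v ∈ A, ∀ x ∈ A, ∀ y ∈ A, c v w ≠ c x y) ∧
      (∀ v ∈ A, ∀ u ∈ A, v ≠ u → c v w ≠ c u w) := by
  classical
  have hS : 0 < S.card := lt_of_le_of_lt (Nat.zero_le _) hbig
  set E2 := A.biUnion (fun v => badSet c S k v) with hE2
  set E3 := A.biUnion (fun v => (A ×ˢ A).biUnion (fun p => nbh c S v (c p.1 p.2))) with hE3
  set E4 := (A ×ˢ A).biUnion (fun p => if p.1 ≠ p.2 then agree c S p.1 p.2 else ∅) with hE4
  have hk3 : 0 < k ^ 3 := by positivity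
  have hk2 : 0 < k ^ 2 := by positivity
  have b2 : 4 * E2.card ≤ S.card := by
    have : (8 * k ^ 3) * E2.card ≤ k * (2 * k ^ 2 * S.card) := by
      calc (8 * k ^ 3) * E2.card ≤ (8 * k ^ 3) * ∑ v ∈ A, (badSet c S k v).card :=
            Nat.mul_le_mul_left _ card_biUnion_le
        _ = ∑ v ∈ A, (8 * k ^ 3) * (badSet c S k v).card := by rw [mul_sum]
        _ ≤ ∑ v ∈ A, 2 * k ^ 2 * S.card := sum_le_sum fun v _ => card_bad hs hdeg v hS
        _ = A.card * (2 * k ^ 2 * S.card) := by simp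
        _ ≤ k * (2 * k ^ 2 * S.card) := Nat.mul_le_mul_right _ hAk
    have h2 : (2 * k ^ 3) * (4 * E2.card) ≤ (2 * k ^ 3) * S.card := by
      calc (2 * k ^ 3) * (4 * E2.card) = (8 * k ^ 3) * E2.card := by ring
        _ ≤ _ := this
        _ = _ := by ring
    exact Nat.le_of_mul_le_mul_left h2 (by positivity)
  have b3 : 8 * E3.card ≤ S.card := by
    have : (8 * k ^ 3) * E3.card ≤ k * (k * k * S.card) := by
      calc (8 * k ^ 3) * E3.card
          ≤ (8 * k ^ 3) * ∑ v ∈ A, ∑ p ∈ A ×ˢ A, (nbh c S v (c p.1 p.2)).card := by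
            refine Nat.mul_le_mul_left _ ?_
            refine card_biUnion_le.trans ?_
            exact sum_le_sum fun v _ => card_biUnion_le
        _ = ∑ v ∈ A, ∑ p ∈ A ×ˢ A, (8 * k ^ 3) * (nbh c S v (c p.1 p.2)).card := by
            rw [mul_sum]
            refine sum_congr rfl fun v _ => ?_
            rw [mul_sum]
        _ ≤ ∑ v ∈ A, ∑ p ∈ A ×ˢ A, S.card :=
            sum_le_sum fun v hv => sum_le_sum fun p _ => hdeg v (hA hv) _
        _ = A.card * (A.card * A.card * S.card) := by simp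
        _ ≤ k * (k * k * S.card) := by gcongr
    have h2 : (k ^ 3) * (8 * E3.card) ≤ (k ^ 3) * S.card := by
      calc (k ^ 3) * (8 * E3.card) = (8 * k ^ 3) * E3.card := by ring
        _ ≤ _ := this
        _ = _ := by ring
    exact Nat.le_of_mul_le_mul_left h2 hk3
  have b4 : 2 * E4.card ≤ S.card := by
    have : (2 * k ^ 2) * E4.card ≤ k * k * S.card := by
      calc (2 * k ^ 2) * E4.card
          ≤ (2 * k ^ 2) * ∑ p ∈ A ×ˢ A, (if p.1 ≠ p.2 then agree c S p.1 p.2 else ∅).card :=
            Nat.mul_le_mul_left _ card_biUnion_le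
        _ = ∑ p ∈ A ×ˢ A, (2 * k ^ 2) * (if p.1 ≠ p.2 then agree c S p.1 p.2 else ∅).card := by
            rw [mul_sum]
        _ ≤ ∑ p ∈ A ×ˢ A, S.card := by
            refine sum_le_sum fun p hp => ?_
            rw [mem_product] at hp
            by_cases h : p.1 ≠ p.2
            · rw [if_pos h]
              have := hgood p.1 hp.1 p.2 hp.2 h
              simp only [badSet, mem_filter, not_and, not_le] at this
              exact (this (hA hp.2) (Ne.symm h)).le
            · rw [if_neg h]; simp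
        _ = A.card * A.card * S.card := by simp
        _ ≤ k * k * S.card := by gcongr
    have h2 : (k ^ 2) * (2 * E4.card) ≤ (k ^ 2) * S.card := by
      calc (k ^ 2) * (2 * E4.card) = (2 * k ^ 2) * E4.card := by ring
        _ ≤ _ := this
        _ = _ := by ring
    exact Nat.le_of_mul_le_mul_left h2 hk2
  have b1 : 8 * A.card < S.card := by
    have : k ≤ k ^ 3 := Nat.le_self_pow (by norm_num) k
    omega
  have htot : (A ∪ E2 ∪ E3 ∪ E4).card < S.card := by
    have := card_union_le (A ∪ E2 ∪ E3) E4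
    have := card_union_le (A ∪ E2) E3
    have := card_union_le A E2
    omega
  obtain ⟨w, hw, hw'⟩ := exists_mem_notMem_of_card_lt_card htot
  simp only [mem_union, not_or] at hw'
  obtain ⟨⟨⟨w1, w2⟩, w3⟩, w4⟩ := hw'
  refine ⟨w, hw, w1, ?_, ?_, ?_⟩
  · intro v hv hbad
    exact w2 (mem_biUnion.2 ⟨v, hv, hbad⟩)
  · intro v hv x hx y hy h
    refine w3 (mem_biUnion.2 ⟨v, hv, mem_biUnion.2 ⟨(x, y), mem_product.2 ⟨hx, hy⟩, ?_⟩⟩)
    simp only [nbh, mem_filter]
    exact ⟨hw, fun h' => w1 (h' ▸ hv), h⟩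
  · intro v hv u hu hvu h
    refine w4 (mem_biUnion.2 ⟨(v, u), mem_product.2 ⟨hv, hu⟩, ?_⟩)
    simp only [ne_eq, hvu, not_false_eq_true, if_true, agree, mem_filter]
    exact ⟨hw, fun h' => w1 (h' ▸ hv), fun h' => w1 (h' ▸ hu), h⟩

/-- the unordered pairs `{a,b}` and `{a',b'}` coincide -/
def SamePair {α : Type} (a b a' b' : α) : Prop := (a = a' ∧ b = b') ∨ (a = b' ∧ b = a')

theorem rainbow_greedy {α : Type} [DecidableEq α] {c : V → V → Fin r} (hs : Symm c)
    {S : Finset V} {k : ℕ} (hk : 1 ≤ k)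
    (hdeg : ∀ v ∈ S, ∀ a, (8 * k ^ 3) * (nbh c S v a).card ≤ S.card)
    (hbig : 8 * k ^ 3 < S.card) (U : Finset α) (hU : U.card ≤ k) :
    ∃ f : α → V, (∀ a ∈ U, f a ∈ S) ∧ (∀ a ∈ U, ∀ b ∈ U, a ≠ b → f a ≠ f b) ∧
      (∀ a ∈ U, ∀ b ∈ U, a ≠ b → f b ∉ badSet c S k (f a)) ∧
      (∀ a ∈ U, ∀ b ∈ U, ∀ a' ∈ U, ∀ b' ∈ U, a ≠ b → a' ≠ b' →
        c (f a) (f b) = c (f a') (f b') → SamePair a b a' b') := by
  classical
  induction U using Finset.induction_on with
  | empty =>
    have : S.Nonempty := card_pos.1 (lt_of_le_of_lt (Nat.zero_le _) hbig)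
    obtain ⟨s, _⟩ := this
    exact ⟨fun _ => s, by simp, by simp, by simp, by simp⟩
  | insert x U hx ih =>
    rw [card_insert_of_notMem hx] at hU
    obtain ⟨f, f1, f2, f3, f4⟩ := ih (by omega)
    have hA : U.image f ⊆ S := by
      intro y hy
      obtain ⟨a, ha, rfl⟩ := mem_image.1 hy
      exact f1 a ha
    have hAk : (U.image f).card ≤ k := card_image_le.trans (by omega)
    obtain ⟨w, hw, w1, w2, w3, w4⟩ := exists_next hs hk hdeg hbig (U.image f) hA hAk (by
      intro v hv u hu hvu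
      obtain ⟨a, ha, rfl⟩ := mem_image.1 hv
      obtain ⟨b, hb, rfl⟩ := mem_image.1 hu
      exact f3 a ha b hb (fun h => hvu (by rw [h])))
    have w1' : ∀ a ∈ U, f a ≠ w := fun a ha h => w1 (mem_image.2 ⟨a, ha, h⟩)
    have w2' : ∀ a ∈ U, w ∉ badSet c S k (f a) := fun a ha => w2 _ (mem_image_of_mem f ha)
    have w3' : ∀ a ∈ U, ∀ b ∈ U, ∀ b' ∈ U, c (f a) w ≠ c (f b) (f b') := fun a ha b hb b' hb' =>
      w3 _ (mem_image_of_mem f ha) _ (mem_image_of_mem f hb) _ (mem_image_of_mem f hb')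
    have w4' : ∀ a ∈ U, ∀ b ∈ U, a ≠ b → c (f a) w ≠ c (f b) w := fun a ha b hb hab =>
      w4 _ (mem_image_of_mem f ha) _ (mem_image_of_mem f hb) (f2 a ha b hb hab)
    have hbadsymm : ∀ a, f a ∈ S → w ∉ badSet c S k (f a) → w ≠ f a → f a ∉ badSet c S k w := by
      intro a ha h1 h2 h3
      apply h1
      simp only [badSet, mem_filter] at h3 ⊢
      refine ⟨hw, h2, ?_⟩
      have : agree c S w (f a) = agree c S (f a) w := by
        ext z
        simp only [agree, mem_filter]
        constructor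
        · rintro ⟨q1, q2, q3, q4⟩; exact ⟨q1, q3, q2, q4.symm⟩
        · rintro ⟨q1, q2, q3, q4⟩; exact ⟨q1, q3, q2, q4.symm⟩
      rw [this] at h3
      exact h3.2.2
    set g : α → V := Function.update f x w with hg
    have gx : g x = w := by rw [hg, Function.update_self]
    have gU : ∀ a ∈ U, g a = f a := by
      intro a ha
      rw [hg, Function.update_of_ne]
      rintro rfl; exact hx ha
    refine ⟨g, ?_, ?_, ?_, ?_⟩
    · intro a ha
      rcases mem_insert.1 ha with h | h
      · rw [h, gx]; exact hw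
      · rw [gU a h]; exact f1 a h
    · intro a ha b hb hab
      rcases mem_insert.1 ha with h | h <;> rcases mem_insert.1 hb with h' | h'
      · exact absurd (h.trans h'.symm) hab
      · rw [h, gx, gU b h']; exact (w1' b h').symm
      · rw [h', gx, gU a h]; exact w1' a h
      · rw [gU a h, gU b h']; exact f2 a h b h' hab
    · intro a ha b hb hab
      rcases mem_insert.1 ha with h | h <;> rcases mem_insert.1 hb with h' | h'
      · exact absurd (h.trans h'.symm) hab
      · rw [h, gx, gU b h']; exact hbadsymm b (f1 b h') (w2' b h') (w1' b h').symm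
      · rw [h', gx, gU a h]; exact w2' a h
      · rw [gU a h, gU b h']; exact f3 a h b h' hab
    · -- normal form of a pair
      have key : ∀ a ∈ insert x U, ∀ b ∈ insert x U, a ≠ b →
          (a ∈ U ∧ b ∈ U ∧ c (g a) (g b) = c (f a) (f b)) ∨
          (∃ u ∈ U, c (g a) (g b) = c (f u) w ∧ ((a = u ∧ b = x) ∨ (a = x ∧ b = u))) := by
        intro a ha b hb hab
        rcases mem_insert.1 ha with h | h <;> rcases mem_insert.1 hb with h' | h'
        · exact absurd (h.trans h'.symm) hab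
        · right; refine ⟨b, h', ?_, Or.inr ⟨h, rfl⟩⟩
          rw [h, gx, gU b h', hs]
        · right; refine ⟨a, h, ?_, Or.inl ⟨rfl, h'⟩⟩
          rw [h', gx, gU a h]
        · left; exact ⟨h, h', by rw [gU a h, gU b h']⟩
      intro a ha b hb a' ha' b' hb' hab hab' heq
      rcases key a ha b hb hab with ⟨h1, h2, h3⟩ | ⟨u, hu, h1, h2⟩ <;>
        rcases key a' ha' b' hb' hab' with ⟨k1, k2, k3⟩ | ⟨u', hu', k1, k2⟩
      · rw [h3, k3] at heq
        exact f4 a h1 b h2 a' k1 b' k2 hab hab' heq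
      · rw [h3, k1] at heq
        exact absurd heq.symm (w3' u' hu' a h1 b h2)
      · rw [h1, k3] at heq
        exact absurd heq (w3' u hu a' k1 b' k2)
      · rw [h1, k1] at heq
        have huu : u = u' := by
          by_contra hne
          exact w4' u hu u' hu' hne heq
        subst huu
        rcases h2 with ⟨p1, p2⟩ | ⟨p1, p2⟩ <;> rcases k2 with ⟨q1, q2⟩ | ⟨q1, q2⟩
        · exact Or.inl ⟨p1.trans q1.symm, p2.trans q2.symm⟩
        · exact Or.inr ⟨p1.trans q2.symm, p2.trans q1.symm⟩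
        · exact Or.inr ⟨p1.trans q2.symm, p2.trans q1.symm⟩
        · exact Or.inl ⟨p1.trans q1.symm, p2.trans q2.symm⟩

/-- large colourings without monochromatic triangle contain rainbow cliques -/
theorem rainbow_exists {α : Type} [DecidableEq α] {c : V → V → Fin r} (hs : Symm c)
    {k : ℕ} (hk : 1 ≤ k) (U : Finset α) (hU : U.card ≤ k) :
    ∀ (m : ℕ) (R : Finset (Fin r)), R.card = m → ∀ S : Finset V, NoMono c S →
      (∀ x ∈ S, ∀ y ∈ S, x ≠ y → c x y ∈ R) → (8 * k ^ 3) ^ m < S.card →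
      ∃ f : α → V, (∀ a ∈ U, f a ∈ S) ∧ (∀ a ∈ U, ∀ b ∈ U, a ≠ b → f a ≠ f b) ∧
      (∀ a ∈ U, ∀ b ∈ U, ∀ a' ∈ U, ∀ b' ∈ U, a ≠ b → a' ≠ b' →
        c (f a) (f b) = c (f a') (f b') → SamePair a b a' b') := by
  classical
  intro m
  induction m with
  | zero =>
    intro R hR S _ hcol hcard
    rw [pow_zero] at hcard
    obtain ⟨x, hx, y, hy, hxy⟩ := one_lt_card.1 hcard
    have := hcol x hx y hy hxy
    rw [card_eq_zero] at hR
    rw [hR] at this
    simp at this
  | succ m ih =>
    intro R hR S hn hcol hcard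
    by_cases h : ∃ v ∈ S, ∃ a, S.card < (8 * k ^ 3) * (nbh c S v a).card
    · obtain ⟨v, hv, a, ha⟩ := h
      have hne : (nbh c S v a).Nonempty := by
        rw [← card_pos]
        rcases Nat.eq_zero_or_pos (nbh c S v a).card with h0 | h0
        · rw [h0] at ha; simp at ha
        · exact h0
      obtain ⟨w, hw⟩ := hne
      have haR : a ∈ R := by
        simp only [nbh, mem_filter] at hw
        rw [← hw.2.2]
        exact hcol v hv w hw.1 (Ne.symm hw.2.1)
      have hcard' : (8 * k ^ 3) ^ m < (nbh c S v a).card := by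
        rw [pow_succ] at hcard
        have : (8 * k ^ 3) * (8 * k ^ 3) ^ m < (8 * k ^ 3) * (nbh c S v a).card := by
          calc (8 * k ^ 3) * (8 * k ^ 3) ^ m = (8 * k ^ 3) ^ m * (8 * k ^ 3) := by ring
            _ < S.card := hcard
            _ < _ := ha
        exact Nat.lt_of_mul_lt_mul_left this
      obtain ⟨f, g1, g2, g3⟩ := ih (R.erase a) (by rw [card_erase_of_mem haR, hR]; rfl)
        (nbh c S v a) (hn.mono nbh_sub) (by
          intro x hx y hy hxy
          rw [mem_erase]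
          exact ⟨nbh_free hn hv x hx y hy hxy, hcol x (nbh_sub hx) y (nbh_sub hy) hxy⟩) hcard'
      exact ⟨f, fun a ha => nbh_sub (g1 a ha), g2, g3⟩
    · push Not at h
      have hbig : 8 * k ^ 3 < S.card := by
        refine lt_of_le_of_lt ?_ hcard
        exact Nat.le_self_pow (by omega) _
      obtain ⟨f, g1, g2, _, g4⟩ := rainbow_greedy hs hk h hbig U hU
      exact ⟨f, g1, g2, g4⟩

end

end H727R2.TP
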