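import Pool.Agent.H727R2.TP.Rainbow

set_option autoImplicit false

open Finset

namespace H727R2.TP

/-- `f` embeds the pattern `P` restricted to `U` -/
def Copy {V : Type} {r : ℕ} {α κ : Type} (c : V → V → Fin r) (P : α → α → κ) (U : Finset α)
    (f : α → V) : Prop :=
  (∀ a ∈ U, ∀ b ∈ U, a ≠ b → f a ≠ f b) ∧
  (∀ a ∈ U, ∀ b ∈ U, ∀ a' ∈ U, ∀ b' ∈ U, a ≠ b → a' ≠ b' →
    (c (f a) (f b) = c (f a') (f b') ↔ P a b = P a' b'))

/-- the pattern is unavoidable with constant `C` -/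
def UnavC {α κ : Type} (P : α → α → κ) (U : Finset α) (C : ℕ) : Prop :=
  ∀ (r : ℕ) (V : Type) (c : V → V → Fin r), Symm c →
    ∀ S : Finset V, NoMono c S → C ^ r ≤ S.card →
      ∃ f : α → V, (∀ a ∈ U, f a ∈ S) ∧ Copy c P U f

/-- the pattern is unavoidable -/
def Unav {α κ : Type} (P : α → α → κ) (U : Finset α) : Prop := ∃ C : ℕ, UnavC P U C

theorem UnavC.mono {α κ : Type} {P : α → α → κ} {U : Finset α} {C C' : ℕ} (h : UnavC P U C)
    (hC : C ≤ C') : UnavC P U C' := by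
  intro r V c hs S hn hS
  exact h r V c hs S hn ((Nat.pow_le_pow_left hC r).trans hS)

theorem unav_rainbow {α κ : Type} [DecidableEq α] (P : α → α → κ) (U : Finset α)
    (hP : ∀ a ∈ U, ∀ b ∈ U, ∀ a' ∈ U, ∀ b' ∈ U, a ≠ b → a' ≠ b' →
      (P a b = P a' b' ↔ SamePair a b a' b')) : Unav P U := by
  classical
  refine ⟨8 * (U.card + 1) ^ 3 + 1, ?_⟩
  intro r V c hs S hn hS
  have hSpos : 0 < S.card := lt_of_lt_of_le (by positivity) hS
  obtain ⟨s, hsS⟩ := card_pos.1 hSpos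
  rcases Nat.eq_zero_or_pos r with h0 | h0
  · subst h0; exact (c s s).elim0
  have hlt : (8 * (U.card + 1) ^ 3) ^ r < S.card :=
    lt_of_lt_of_le (Nat.pow_lt_pow_left (Nat.lt_succ_self _) h0.ne') hS
  obtain ⟨f, f1, f2, f3⟩ := rainbow_exists hs (k := U.card + 1) (by omega) U (by omega) r
    (univ : Finset (Fin r)) (by simp) S hn (fun _ _ _ _ _ => mem_univ _) hlt
  refine ⟨f, f1, f2, ?_⟩
  intro a ha b hb a' ha' b' hb' hab hab'
  rw [hP a ha b hb a' ha' b' hb' hab hab']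
  constructor
  · intro h; exact f3 a ha b hb a' ha' b' hb' hab hab' h
  · rintro (⟨rfl, rfl⟩ | ⟨rfl, rfl⟩)
    · rfl
    · exact hs _ _

/-- counting: the number of copies -/
theorem count_copies {V : Type} [DecidableEq V] {α : Type} (U : Finset α) (S : Finset V)
    (M : ℕ) (hM : M ≤ S.card) (𝒞 : Finset (U → S))
    (hinj : ∀ g ∈ 𝒞, Function.Injective g)
    (hex : ∀ T ⊆ S, T.card = M → ∃ g ∈ 𝒞, ∀ a, (g a : V) ∈ T) :
    (S.card).choose U.card ≤ 𝒞.card * M.choose U.card := by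
  classical
  have hsM : U.card ≤ M := by
    obtain ⟨T, hTS, hT⟩ := exists_subset_card_eq hM
    obtain ⟨g, hg, hgT⟩ := hex T hTS hT
    have : (univ.image (fun a : U => (g a : V))).card ≤ T.card :=
      card_le_card (by
        intro x hx
        obtain ⟨a, _, rfl⟩ := mem_image.1 hx
        exact hgT a)
    rw [card_image_of_injective _ (fun a b h => hinj g hg (Subtype.ext h))] at this
    simpa [hT] using this
  have h1 : (S.card).choose M ≤ 𝒞.card * (S.card - U.card).choose (M - U.card) := by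
    have hcov : powersetCard M S ⊆
        𝒞.biUnion (fun g => (powersetCard M S).filter (fun T => ∀ a, (g a : V) ∈ T)) := by
      intro T hT
      have hT' := mem_powersetCard.1 hT
      obtain ⟨g, hg, hgT⟩ := hex T hT'.1 hT'.2
      exact mem_biUnion.2 ⟨g, hg, mem_filter.2 ⟨hT, hgT⟩⟩
    calc (S.card).choose M = (powersetCard M S).card := (card_powersetCard _ _).symm
      _ ≤ _ := card_le_card hcov
      _ ≤ ∑ g ∈ 𝒞, ((powersetCard M S).filter (fun T => ∀ a, (g a : V) ∈ T)).card :=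
          card_biUnion_le
      _ ≤ ∑ g ∈ 𝒞, (S.card - U.card).choose (M - U.card) := by
          refine sum_le_sum fun g hg => ?_
          set I : Finset V := univ.image (fun a : U => (g a : V)) with hI
          have hIc : I.card = U.card := by
            rw [hI, card_image_of_injective _ (fun a b h => hinj g hg (Subtype.ext h))]
            simp
          have hIS : I ⊆ S := by
            intro x hx
            obtain ⟨a, _, rfl⟩ := mem_image.1 hx
            exact (g a).2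
          have : (S.card - U.card).choose (M - U.card)
              = (powersetCard (M - U.card) (S \ I)).card := by
            rw [card_powersetCard, card_sdiff_of_subset hIS, hIc]
          rw [this]
          refine card_le_card_of_injOn (fun T => T \ I) ?_ ?_
          · intro T hT
            have hT := mem_filter.1 (mem_coe.1 hT)
            have hT1 := mem_powersetCard.1 hT.1
            have hIT : I ⊆ T := by
              intro x hx
              obtain ⟨a, _, rfl⟩ := mem_image.1 hx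
              exact hT.2 a
            refine mem_coe.2 (mem_powersetCard.2 ⟨sdiff_subset_sdiff hT1.1 (Subset.refl _), ?_⟩)
            rw [card_sdiff_of_subset hIT, hT1.2, hIc]
          · intro T hT T' hT' h
            have hT := mem_filter.1 (mem_coe.1 hT)
            have hT' := mem_filter.1 (mem_coe.1 hT')
            have hIT : I ⊆ T := by
              intro x hx
              obtain ⟨a, _, rfl⟩ := mem_image.1 hx
              exact hT.2 a
            have hIT' : I ⊆ T' := by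
              intro x hx
              obtain ⟨a, _, rfl⟩ := mem_image.1 hx
              exact hT'.2 a
            have h : T \ I = T' \ I := h
            rw [← sdiff_union_of_subset hIT, h, sdiff_union_of_subset hIT']
      _ = _ := by simp
  have h2 := Nat.choose_mul (n := S.card) hsM
  have hpos : 0 < (S.card - U.card).choose (M - U.card) :=
    Nat.choose_pos (by omega)
  have h3 : (S.card).choose U.card * (S.card - U.card).choose (M - U.card)
      ≤ (𝒞.card * M.choose U.card) * (S.card - U.card).choose (M - U.card) := by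
    rw [← h2]
    calc (S.card).choose M * M.choose U.card
        ≤ (𝒞.card * (S.card - U.card).choose (M - U.card)) * M.choose U.card :=
          Nat.mul_le_mul_right _ h1
      _ = _ := by ring
  exact Nat.le_of_mul_le_mul_right h3 hpos

/-- arithmetic: from the count to the average -/
theorem arith {n s M r x N : ℕ} (hs : 1 ≤ s) (hM : 1 ≤ M) (h2s : 2 * s ≤ n)
    (hcount : n.choose s ≤ N * M.choose s)
    (hn : 2 ^ s * s.factorial * M ^ s * r ^ (s - 1) * x ≤ n) :
    (n ^ (s - 1) * r ^ (s - 1)) * x ≤ N := by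
  have h1 : (n + 1 - s) ^ s ≤ s.factorial * n.choose s := by
    rw [← Nat.descFactorial_eq_factorial_mul_choose]
    exact Nat.pow_sub_le_descFactorial n s
  have h2 : n ≤ 2 * (n + 1 - s) := by omega
  have h3 : n ^ s ≤ 2 ^ s * s.factorial * M ^ s * N := by
    calc n ^ s ≤ (2 * (n + 1 - s)) ^ s := Nat.pow_le_pow_left h2 s
      _ = 2 ^ s * (n + 1 - s) ^ s := mul_pow _ _ _
      _ ≤ 2 ^ s * (s.factorial * n.choose s) := Nat.mul_le_mul_left _ h1
      _ ≤ 2 ^ s * (s.factorial * (N * M.choose s)) := by gcongr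
      _ ≤ 2 ^ s * (s.factorial * (N * M ^ s)) := by
          gcongr
          exact Nat.choose_le_pow M s
      _ = _ := by ring
  obtain ⟨t, rfl⟩ : ∃ t, s = t + 1 := ⟨s - 1, by omega⟩
  rw [Nat.add_sub_cancel] at *
  set A := 2 ^ (t + 1) * (t + 1).factorial * M ^ (t + 1) with hA
  have hApos : 0 < A := by positivity
  have h4 : A * ((n ^ t * r ^ t) * x) ≤ A * N := by
    calc A * ((n ^ t * r ^ t) * x) = n ^ t * (A * r ^ t * x) := by ring
      _ ≤ n ^ t * n := Nat.mul_le_mul_left _ hn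
      _ = n ^ (t + 1) := (pow_succ _ _).symm
      _ ≤ A * N := h3
  exact Nat.le_of_mul_le_mul_left h4 hApos

theorem unav_subst {α κ : Type} [DecidableEq α] (P : α → α → κ) (U B : Finset α) (v : α)
    (hvU : v ∈ U) (hvB : v ∈ B)
    (h2 : ∀ u ∈ U, u ≠ v → ∀ b ∈ B, P u b = P u v ∧ P b u = P v u)
    (h3 : ∀ b ∈ B, ∀ b' ∈ B, b ≠ b' → ∀ u ∈ U, ∀ u' ∈ U, u ≠ u' → P b b' ≠ P u u')
    (hU : Unav P U) (hB : Unav P B) : Unav P (U ∪ B) := by
  classical
  obtain ⟨C1', hC1'⟩ := hU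
  obtain ⟨C2', hC2'⟩ := hB
  obtain ⟨C1, hC1, hC1pos⟩ : ∃ C1, UnavC P U C1 ∧ 1 ≤ C1 := ⟨C1' + 1, hC1'.mono (by omega), by omega⟩
  obtain ⟨C2, hC2, hC2pos⟩ : ∃ C2, UnavC P B C2 ∧ 1 ≤ C2 := ⟨C2' + 1, hC2'.mono (by omega), by omega⟩
  clear hC1' hC2'
  set s := U.card with hs
  have hs1 : 1 ≤ s := card_pos.2 ⟨v, hvU⟩
  refine ⟨(2 ^ s * s.factorial) * C1 ^ s * 2 ^ s * C2 ^ (2 ^ (s ^ 2)), ?_⟩
  intro r V c hsym S hn hS
  set C := (2 ^ s * s.factorial) * C1 ^ s * 2 ^ s * C2 ^ (2 ^ (s ^ 2)) with hC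
  have hpos1 : 1 ≤ 2 ^ s * s.factorial := Nat.one_le_iff_ne_zero.2 (by positivity)
  have hpos2 : 1 ≤ C1 ^ s := Nat.one_le_pow _ _ hC1pos
  have hpos3 : 1 ≤ 2 ^ s := Nat.one_le_two_pow
  have hpos4 : 1 ≤ C2 ^ (2 ^ (s ^ 2)) := Nat.one_le_pow _ _ hC2pos
  have hCpos : 1 ≤ C := by
    rw [hC]
    exact Nat.one_le_iff_ne_zero.2 (by positivity)
  have hSpos : 0 < S.card := lt_of_lt_of_le (by positivity) hS
  obtain ⟨s0, hs0S⟩ := card_pos.1 hSpos
  rcases Nat.eq_zero_or_pos r with h0 | hr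
  · subst h0; exact (c s0 s0).elim0
  -- sizes
  set M := C1 ^ r with hMdef
  have hM1 : 1 ≤ M := Nat.one_le_pow _ _ hC1pos
  have hCr : C ≤ C ^ r := Nat.le_self_pow hr.ne' _
  have hC1C : C1 ≤ C := by
    calc C1 ≤ C1 ^ s := Nat.le_self_pow (by omega) _
      _ = 1 * C1 ^ s * 1 * 1 := by ring
      _ ≤ (2 ^ s * s.factorial) * C1 ^ s * 2 ^ s * C2 ^ (2 ^ (s ^ 2)) := by gcongr
  have hMS : M ≤ S.card := (Nat.pow_le_pow_left hC1C r).trans hS
  have h2s : 2 * s ≤ S.card := by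
    have e1 : 2 * s ≤ 2 ^ s * s.factorial := by
      have : s ≤ s.factorial := Nat.self_le_factorial s
      have h2 : 2 ≤ 2 ^ s := Nat.le_self_pow (by omega) _
      exact Nat.mul_le_mul h2 this
    have e2 : 2 ^ s * s.factorial ≤ C := by
      calc 2 ^ s * s.factorial = (2 ^ s * s.factorial) * 1 * 1 * 1 := by ring
        _ ≤ (2 ^ s * s.factorial) * C1 ^ s * 2 ^ s * C2 ^ (2 ^ (s ^ 2)) := by gcongr
    exact ((e1.trans e2).trans hCr).trans hS
  set x := (C2 ^ r) ^ (2 ^ (s ^ 2)) with hx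
  have hx1 : 1 ≤ x := Nat.one_le_pow _ _ (Nat.one_le_pow _ _ hC2pos)
  have hbig : 2 ^ s * s.factorial * M ^ s * r ^ (s - 1) * x ≤ S.card := by
    refine le_trans ?_ hS
    have e1 : 2 ^ s * s.factorial ≤ (2 ^ s * s.factorial) ^ r := Nat.le_self_pow hr.ne' _
    have e2 : r ^ (s - 1) ≤ (2 ^ s) ^ r := by
      calc r ^ (s - 1) ≤ r ^ s := Nat.pow_le_pow_right hr (Nat.sub_le _ _)
        _ ≤ (2 ^ r) ^ s := Nat.pow_le_pow_left Nat.lt_two_pow_self.le s
        _ = (2 ^ s) ^ r := by rw [← pow_mul, ← pow_mul, mul_comm]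
    calc 2 ^ s * s.factorial * M ^ s * r ^ (s - 1) * x
        ≤ (2 ^ s * s.factorial) ^ r * (C1 ^ r) ^ s * (2 ^ s) ^ r * (C2 ^ r) ^ (2 ^ (s ^ 2)) := by
          gcongr
      _ = C ^ r := by
          have q1 : (C1 ^ r) ^ s = (C1 ^ s) ^ r := by rw [← pow_mul, ← pow_mul, mul_comm]
          have q2 : (C2 ^ r) ^ (2 ^ (s ^ 2)) = (C2 ^ (2 ^ (s ^ 2))) ^ r := by
            rw [← pow_mul, ← pow_mul, mul_comm]
          rw [q1, q2, ← mul_pow, ← mul_pow, ← mul_pow]
  -- the copies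
  set 𝒞 : Finset (U → S) := univ.filter (fun g : U → S => Function.Injective g ∧
    ∀ a b a' b' : U, a ≠ b → a' ≠ b' →
      (c (g a) (g b) = c (g a') (g b') ↔ P a b = P a' b')) with h𝒞
  have hcount := count_copies U S M hMS 𝒞 (by
      intro g hg
      exact (mem_filter.1 hg).2.1) (by
      intro T hTS hT
      obtain ⟨f, f1, f2, f3⟩ := hC1 r V c hsym T (hn.mono hTS) (by rw [hT])
      refine ⟨fun a => ⟨f a, hTS (f1 a a.2)⟩, ?_, fun a => f1 a a.2⟩
      refine mem_filter.2 ⟨mem_univ _, ?_, ?_⟩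
      · intro a b hab
        by_contra hne
        exact f2 a a.2 b b.2 (fun h => hne (Subtype.ext h)) (congrArg Subtype.val hab)
      · intro a b a' b' hab hab'
        exact f3 a a.2 b b.2 a' a'.2 b' b'.2 (fun h => hab (Subtype.ext h))
          (fun h => hab' (Subtype.ext h)))
  have havg := arith hs1 hM1 h2s hcount hbig
  -- pigeonhole
  let φ : (U → S) → ((U.erase v → S) × (U.erase v → Fin r)) := fun g =>
    (fun a => g ⟨a, mem_of_mem_erase a.2⟩,
     fun a => c (g ⟨a, mem_of_mem_erase a.2⟩) (g ⟨v, hvU⟩))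
  have hcod : (univ : Finset ((U.erase v → S) × (U.erase v → Fin r))).card
      = S.card ^ (s - 1) * r ^ (s - 1) := by
    rw [card_univ, Fintype.card_prod, Fintype.card_fun, Fintype.card_fun]
    simp [card_erase_of_mem hvU, hs]
  have hne : (univ : Finset ((U.erase v → S) × (U.erase v → Fin r))).Nonempty :=
    ⟨(fun _ => ⟨s0, hs0S⟩, fun _ => ⟨0, hr⟩), mem_univ _⟩
  obtain ⟨y, -, hy⟩ := exists_le_card_fiber_of_mul_le_card_of_maps_to (s := 𝒞) (f := φ)
    (n := x) (fun _ _ => mem_univ _) hne (by rw [hcod]; exact havg)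
  set fib := 𝒞.filter (fun g => φ g = y) with hfib
  have hfibne : fib.Nonempty := card_pos.1 (lt_of_lt_of_le hx1 hy)
  obtain ⟨g0, hg0⟩ := hfibne
  have hg0C := (mem_filter.1 hg0).1
  have hg0y := (mem_filter.1 hg0).2
  have hcopy : ∀ g ∈ 𝒞, Function.Injective g ∧
    ∀ a b a' b' : U, a ≠ b → a' ≠ b' →
      (c (g a) (g b) = c (g a') (g b') ↔ P a b = P a' b') := fun g hg => (mem_filter.1 hg).2
  have hsame : ∀ g ∈ fib, ∀ a : U, (a : α) ≠ v → g a = g0 a := by
    intro g hg a ha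
    have e1 := (mem_filter.1 hg).2
    have e2 : φ g = φ g0 := e1.trans hg0y.symm
    have e3 := congrFun (congrArg Prod.fst e2) ⟨a, mem_erase.2 ⟨ha, a.2⟩⟩
    exact e3
  have hcol : ∀ g ∈ fib, ∀ a : U, (a : α) ≠ v →
      c (g0 a) (g ⟨v, hvU⟩) = c (g0 a) (g0 ⟨v, hvU⟩) := by
    intro g hg a ha
    have e1 := (mem_filter.1 hg).2
    have e2 : φ g = φ g0 := e1.trans hg0y.symm
    have e3 := congrFun (congrArg Prod.snd e2) ⟨a, mem_erase.2 ⟨ha, a.2⟩⟩
    have e4 : c (g a) (g ⟨v, hvU⟩) = c (g0 a) (g0 ⟨v, hvU⟩) := e3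
    rwa [hsame g hg a ha] at e4
  set X : Finset V := fib.image (fun g => (g ⟨v, hvU⟩ : V)) with hX
  have hXcard : x ≤ X.card := by
    rw [hX, card_image_of_injOn]
    · exact hy
    · intro g hg g' hg' h
      have hg := mem_coe.1 hg
      have hg' := mem_coe.1 hg'
      funext a
      by_cases ha : (a : α) = v
      · have : a = ⟨v, hvU⟩ := Subtype.ext ha
        rw [this]
        exact Subtype.ext h
      · rw [hsame g hg a ha, hsame g' hg' a ha]
  have hXS : X ⊆ S := by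
    intro z hz
    obtain ⟨g, _, rfl⟩ := mem_image.1 hz
    exact (g _).2
  -- the copy of U
  set f : α → V := fun a => if h : a ∈ U then (g0 ⟨a, h⟩ : V) else s0 with hf
  have fU : ∀ a (h : a ∈ U), f a = g0 ⟨a, h⟩ := fun a h => by rw [hf]; simp [h]
  have finj : ∀ a ∈ U, ∀ b ∈ U, a ≠ b → f a ≠ f b := by
    intro a ha b hb hab h
    rw [fU a ha, fU b hb] at h
    have := (hcopy g0 hg0C).1 (Subtype.ext h)
    exact hab (congrArg Subtype.val this)
  have fcopy : ∀ a ∈ U, ∀ b ∈ U, ∀ a' ∈ U, ∀ b' ∈ U, a ≠ b → a' ≠ b' →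
      (c (f a) (f b) = c (f a') (f b') ↔ P a b = P a' b') := by
    intro a ha b hb a' ha' b' hb' hab hab'
    rw [fU a ha, fU b hb, fU a' ha', fU b' hb']
    exact (hcopy g0 hg0C).2 ⟨a, ha⟩ ⟨b, hb⟩ ⟨a', ha'⟩ ⟨b', hb'⟩
      (fun h => hab (congrArg Subtype.val h)) (fun h => hab' (congrArg Subtype.val h))
  -- colours of the copy
  set F : Finset (Fin r) := (U ×ˢ U).image (fun p => c (f p.1) (f p.2)) with hF
  have hFcard : F.card ≤ s ^ 2 := by
    calc F.card ≤ (U ×ˢ U).card := card_image_le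
      _ = s ^ 2 := by rw [card_product, ← hs]; ring
  obtain ⟨T, hTX, hTcard, hTF⟩ := avoid hsym F X (hn.mono hXS) (C2 ^ r) (by
    refine le_trans ?_ hXcard
    rw [hx]
    exact Nat.pow_le_pow_right (Nat.one_le_pow _ _ hC2pos)
      (Nat.pow_le_pow_right (by norm_num) hFcard))
  obtain ⟨gB, gB1, gB2, gB3⟩ := hC2 r V c hsym T (hn.mono (hTX.trans hXS)) hTcard
  -- facts on gB
  have hXg : ∀ z ∈ X, ∃ g ∈ fib, (g ⟨v, hvU⟩ : V) = z := fun z hz => mem_image.1 hz
  have hBcol : ∀ b ∈ B, ∀ u ∈ U, u ≠ v → c (f u) (gB b) = c (f u) (f v) := by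
    intro b hb u hu huv
    obtain ⟨g, hg, hgz⟩ := hXg _ (hTX (gB1 b hb))
    rw [← hgz, fU u hu, fU v hvU]
    exact hcol g hg ⟨u, hu⟩ huv
  have hBne : ∀ b ∈ B, ∀ u ∈ U, u ≠ v → gB b ≠ f u := by
    intro b hb u hu huv h
    obtain ⟨g, hg, hgz⟩ := hXg _ (hTX (gB1 b hb))
    rw [← hgz, fU u hu, ← hsame g hg ⟨u, hu⟩ huv] at h
    have := (hcopy g (mem_filter.1 hg).1).1 (Subtype.ext h)
    exact huv (congrArg Subtype.val this).symm
  -- the final map
  set h : α → V := fun a => if a ∈ B then gB a else f a with hh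
  have hB : ∀ a ∈ B, h a = gB a := fun a ha => by rw [hh]; simp [ha]
  have hnB : ∀ a, a ∉ B → h a = f a := fun a ha => by rw [hh]; simp [ha]
  have hUnB : ∀ a ∈ U ∪ B, a ∉ B → a ∈ U := by
    intro a ha hab
    rcases mem_union.1 ha with h' | h'
    · exact h'
    · exact absurd h' hab
  refine ⟨h, ?_, ?_, ?_⟩
  · intro a ha
    by_cases hab : a ∈ B
    · rw [hB a hab]; exact hXS (hTX (gB1 a hab))
    · rw [hnB a hab, fU a (hUnB a ha hab)]; exact (g0 _).2
  · intro a ha b hb hab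
    by_cases haB : a ∈ B <;> by_cases hbB : b ∈ B
    · rw [hB a haB, hB b hbB]; exact gB2 a haB b hbB hab
    · rw [hB a haB, hnB b hbB]
      exact hBne a haB b (hUnB b hb hbB) (fun h' => hbB (h' ▸ hvB))
    · rw [hnB a haB, hB b hbB]
      exact (hBne b hbB a (hUnB a ha haB) (fun h' => haB (h' ▸ hvB))).symm
    · rw [hnB a haB, hnB b hbB]
      exact finj a (hUnB a ha haB) b (hUnB b hb hbB) hab
  · -- normal form of a pair which is not inside B
    have key : ∀ a ∈ U ∪ B, ∀ b ∈ U ∪ B, a ≠ b → ¬ (a ∈ B ∧ b ∈ B) →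
        ∃ a' ∈ U, ∃ b' ∈ U, a' ≠ b' ∧ c (h a) (h b) = c (f a') (f b') ∧ P a b = P a' b' := by
      intro a ha b hb hab hnot
      by_cases haB : a ∈ B
      · have hbB : b ∉ B := fun h' => hnot ⟨haB, h'⟩
        have hbU := hUnB b hb hbB
        have hbv : b ≠ v := fun h' => hbB (h' ▸ hvB)
        refine ⟨v, hvU, b, hbU, hbv.symm, ?_, (h2 b hbU hbv a haB).2⟩
        rw [hB a haB, hnB b hbB, hsym, hBcol a haB b hbU hbv, hsym]
      · have haU := hUnB a ha haB
        have hav : a ≠ v := fun h' => haB (h' ▸ hvB)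
        by_cases hbB : b ∈ B
        · refine ⟨a, haU, v, hvU, hav, ?_, (h2 a haU hav b hbB).1⟩
          rw [hB b hbB, hnB a haB, hBcol b hbB a haU hav]
        · exact ⟨a, haU, b, hUnB b hb hbB, hab, by rw [hnB a haB, hnB b hbB], rfl⟩
    intro a ha b hb a' ha' b' hb' hab hab'
    by_cases h1 : a ∈ B ∧ b ∈ B <;> by_cases h1' : a' ∈ B ∧ b' ∈ B
    · rw [hB a h1.1, hB b h1.2, hB a' h1'.1, hB b' h1'.2]
      exact gB3 a h1.1 b h1.2 a' h1'.1 b' h1'.2 hab hab'
    · obtain ⟨u, hu, w, hw, huw, e1, e2⟩ := key a' ha' b' hb' hab' h1'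
      rw [e1, e2, hB a h1.1, hB b h1.2]
      constructor
      · intro hcc
        exfalso
        refine hTF (gB a) (gB1 a h1.1) (gB b) (gB1 b h1.2) (gB2 a h1.1 b h1.2 hab) ?_
        rw [hcc]
        exact mem_image.2 ⟨(u, w), mem_product.2 ⟨hu, hw⟩, rfl⟩
      · intro hPP
        exact absurd hPP (h3 a h1.1 b h1.2 hab u hu w hw huw)
    · obtain ⟨u, hu, w, hw, huw, e1, e2⟩ := key a ha b hb hab h1
      rw [e1, e2, hB a' h1'.1, hB b' h1'.2]
      constructor
      · intro hcc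
        exfalso
        refine hTF (gB a') (gB1 a' h1'.1) (gB b') (gB1 b' h1'.2) (gB2 a' h1'.1 b' h1'.2 hab') ?_
        rw [← hcc]
        exact mem_image.2 ⟨(u, w), mem_product.2 ⟨hu, hw⟩, rfl⟩
      · intro hPP
        exact absurd hPP.symm (h3 a' h1'.1 b' h1'.2 hab' u hu w hw huw)
    · obtain ⟨u, hu, w, hw, huw, e1, e2⟩ := key a ha b hb hab h1
      obtain ⟨u', hu', w', hw', huw', e1', e2'⟩ := key a' ha' b' hb' hab' h1'
      rw [e1, e2, e1', e2']
      exact fcopy u hu w hw u' hu' w' hw' huw huw'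

end H727R2.TP
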