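import Pool.Agent.H727R2.TP.Subst

set_option autoImplicit false

open Finset

namespace H727R2.TP

/-- The words `x,y` branch at the same node of the `k`-ary tree as `x',y'`, and towards the same
two children. -/
def SameSplit {k d : ℕ} (x y x' y' : Fin d → Fin k) : Prop :=
  ∃ j : Fin d, (∀ i : Fin d, i < j → x i = y i ∧ x' i = x i ∧ y' i = x i) ∧ x j ≠ y j ∧
    ((x' j = x j ∧ y' j = y j) ∨ (x' j = y j ∧ y' j = x j))

/-- label of a pair of words: common prefix and the unordered pair of the next letters -/
def lab {k : ℕ} : (d : ℕ) → (Fin d → Fin k) → (Fin d → Fin k) → List (Fin k) × Option (Sym2 (Fin k))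
  | 0, _, _ => ([], none)
  | d + 1, x, y =>
    if x 0 = y 0 then
      (x 0 :: (lab d (Fin.tail x) (Fin.tail y)).1, (lab d (Fin.tail x) (Fin.tail y)).2)
    else ([], some s(x 0, y 0))

theorem lab_eq {k d : ℕ} {x y : Fin (d + 1) → Fin k} (h : x 0 = y 0) :
    lab (d + 1) x y = (x 0 :: (lab d (Fin.tail x) (Fin.tail y)).1,
      (lab d (Fin.tail x) (Fin.tail y)).2) := by
  rw [lab, if_pos h]

theorem lab_ne {k d : ℕ} {x y : Fin (d + 1) → Fin k} (h : x 0 ≠ y 0) :
    lab (d + 1) x y = ([], some s(x 0, y 0)) := by
  rw [lab, if_neg h]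

theorem tail_ne {k d : ℕ} {x y : Fin (d + 1) → Fin k} (h : x 0 = y 0) (hne : x ≠ y) :
    Fin.tail x ≠ Fin.tail y := by
  intro h'
  apply hne
  rw [← Fin.cons_self_tail x, ← Fin.cons_self_tail y, h, h']

theorem lab_iff {k : ℕ} : ∀ (d : ℕ) (x y x' y' : Fin d → Fin k), x ≠ y → x' ≠ y' →
    (lab d x y = lab d x' y' ↔ SameSplit x y x' y') := by
  intro d
  induction d with
  | zero =>
    intro x y x' y' hxy _
    exact absurd (Subsingleton.elim x y) hxy
  | succ d ih =>
    intro x y x' y' hxy hxy'
    by_cases h : x 0 = y 0 <;> by_cases h' : x' 0 = y' 0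
    · rw [lab_eq h, lab_eq h', Prod.mk.injEq, List.cons.injEq]
      have := ih (Fin.tail x) (Fin.tail y) (Fin.tail x') (Fin.tail y') (tail_ne h hxy)
        (tail_ne h' hxy')
      constructor
      · rintro ⟨⟨h0, h1⟩, h2⟩
        obtain ⟨j, hj1, hj2, hj3⟩ := this.1 (Prod.ext h1 h2)
        refine ⟨j.succ, ?_, hj2, hj3⟩
        intro i
        refine Fin.cases ?_ ?_ i
        · intro _
          exact ⟨h, h0.symm, (h0.trans h').symm⟩
        · intro i hi
          exact hj1 i (Fin.succ_lt_succ_iff.1 hi)
      · rintro ⟨j, hj1, hj2, hj3⟩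
        revert hj1 hj2 hj3
        refine Fin.cases ?_ ?_ j
        · intro _ hj2 _
          exact absurd h hj2
        · intro j hj1 hj2 hj3
          have h0 := hj1 0 (Fin.succ_pos j)
          have := this.2 ⟨j, fun i hi => hj1 i.succ (Fin.succ_lt_succ_iff.2 hi), hj2, hj3⟩
          exact ⟨⟨h0.2.1.symm, congrArg Prod.fst this⟩, congrArg Prod.snd this⟩
    · rw [lab_eq h, lab_ne h', Prod.mk.injEq]
      constructor
      · rintro ⟨h1, _⟩
        exact absurd h1 (List.cons_ne_nil _ _)
      · rintro ⟨j, hj1, hj2, hj3⟩
        revert hj1 hj2 hj3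
        refine Fin.cases ?_ ?_ j
        · intro _ hj2 _
          exact absurd h hj2
        · intro j hj1 _ _
          have h0 := hj1 0 (Fin.succ_pos j)
          exact absurd (h0.2.1.trans h0.2.2.symm) h'
    · rw [lab_ne h, lab_eq h', Prod.mk.injEq]
      constructor
      · rintro ⟨h1, _⟩
        exact absurd h1 (List.cons_ne_nil _ _).symm
      · rintro ⟨j, hj1, hj2, hj3⟩
        revert hj1 hj2 hj3
        refine Fin.cases ?_ ?_ j
        · intro _ _ hj3
          rcases hj3 with ⟨p1, p2⟩ | ⟨p1, p2⟩
          · exact absurd (p1.symm.trans (h'.trans p2)) h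
          · exact absurd (p2.symm.trans (h'.symm.trans p1)) h
        · intro j hj1 _ _
          exact absurd (hj1 0 (Fin.succ_pos j)).1 h
    · rw [lab_ne h, lab_ne h', Prod.mk.injEq]
      constructor
      · rintro ⟨_, h1⟩
        have h2 := Sym2.eq_iff.1 (Option.some.inj h1)
        refine ⟨0, fun i hi => absurd hi (Fin.not_lt_zero i), h, ?_⟩
        rcases h2 with ⟨p1, p2⟩ | ⟨p1, p2⟩
        · exact Or.inl ⟨p1.symm, p2.symm⟩
        · exact Or.inr ⟨p2.symm, p1.symm⟩
      · rintro ⟨j, hj1, hj2, hj3⟩
        revert hj1 hj2 hj3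
        refine Fin.cases ?_ ?_ j
        · intro _ _ hj3
          refine ⟨rfl, ?_⟩
          rw [Option.some.injEq, Sym2.eq_iff]
          rcases hj3 with ⟨p1, p2⟩ | ⟨p1, p2⟩
          · exact Or.inl ⟨p1.symm, p2.symm⟩
          · exact Or.inr ⟨p2.symm, p1.symm⟩
        · intro j hj1 _ _
          exact absurd (hj1 0 (Fin.succ_pos j)).1 h

/-- transport of unavoidability along an injection -/
theorem unav_map {α β κ κ' : Type} [DecidableEq β] (P : α → α → κ) (U : Finset α)
    (Q : β → β → κ') (B : Finset β) (e : β → α) (he : ∀ b ∈ B, e b ∈ U)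
    (hinj : ∀ b ∈ B, ∀ b' ∈ B, b ≠ b' → e b ≠ e b')
    (hPQ : ∀ a ∈ B, ∀ b ∈ B, ∀ a' ∈ B, ∀ b' ∈ B, a ≠ b → a' ≠ b' →
      (Q a b = Q a' b' ↔ P (e a) (e b) = P (e a') (e b')))
    (h : Unav P U) : Unav Q B := by
  obtain ⟨C, hC⟩ := h
  refine ⟨C, ?_⟩
  intro r V c hs S hn hS
  obtain ⟨f, f1, f2, f3⟩ := hC r V c hs S hn hS
  refine ⟨fun b => f (e b), fun b hb => f1 _ (he b hb), ?_, ?_⟩
  · intro a ha b hb hab
    exact f2 _ (he a ha) _ (he b hb) (hinj a ha b hb hab)
  · intro a ha b hb a' ha' b' hb' hab hab'
    rw [hPQ a ha b hb a' ha' b' hb' hab hab']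
    exact f3 _ (he a ha) _ (he b hb) _ (he a' ha') _ (he b' hb') (hinj a ha b hb hab)
      (hinj a' ha' b' hb' hab')

theorem unav_tree (k : ℕ) : ∀ d : ℕ, Unav (lab (k := k) d) (univ : Finset (Fin d → Fin k)) := by
  classical
  intro d
  induction d with
  | zero =>
    refine ⟨1, ?_⟩
    intro r V c hs S hn hS
    rw [one_pow] at hS
    obtain ⟨s, hsS⟩ := card_pos.1 hS
    refine ⟨fun _ => s, fun _ _ => hsS, ?_, ?_⟩
    · intro a _ b _ hab
      exact absurd (Subsingleton.elim a b) hab
    · intro a _ b _ _ _ _ _ hab
      exact absurd (Subsingleton.elim a b) hab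
  | succ d ih =>
    rcases Nat.eq_zero_or_pos k with h0 | hk
    · subst h0
      have hE : (univ : Finset (Fin (d + 1) → Fin 0)) = ∅ := by
        rw [univ_eq_empty_iff]
        exact ⟨fun f => (f 0).elim0⟩
      rw [hE]
      refine ⟨1, ?_⟩
      intro r V c hs S hn hS
      rw [one_pow] at hS
      obtain ⟨s, hsS⟩ := card_pos.1 hS
      exact ⟨fun _ => s, by simp, by simp, by simp⟩
    · -- the partially substituted trees
      let x0 : Fin d → Fin k := fun _ => ⟨0, hk⟩
      have main : ∀ J : Finset (Fin k), Unav (lab (k := k) (d + 1))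
          (univ.filter (fun x : Fin (d + 1) → Fin k => x 0 ∈ J ∨ Fin.tail x = x0)) := by
        intro J
        induction J using Finset.induction_on with
        | empty =>
          apply unav_rainbow
          intro a ha b hb a' ha' b' hb' hab hab'
          simp only [notMem_empty, false_or, mem_filter, mem_univ, true_and] at ha hb ha' hb'
          have ext : ∀ u w : Fin (d + 1) → Fin k, Fin.tail u = x0 → Fin.tail w = x0 →
              u 0 = w 0 → u = w := by
            intro u w hu hw h
            rw [← Fin.cons_self_tail u, ← Fin.cons_self_tail w, h, hu, hw]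
          have h1 : a 0 ≠ b 0 := fun h => hab (ext _ _ ha hb h)
          have h1' : a' 0 ≠ b' 0 := fun h => hab' (ext _ _ ha' hb' h)
          rw [lab_ne h1, lab_ne h1', Prod.mk.injEq, Option.some.injEq, Sym2.eq_iff]
          constructor
          · rintro ⟨_, ⟨p1, p2⟩ | ⟨p1, p2⟩⟩
            · exact Or.inl ⟨ext _ _ ha ha' p1, ext _ _ hb hb' p2⟩
            · exact Or.inr ⟨ext _ _ ha hb' p1, ext _ _ hb ha' p2⟩
          · rintro (⟨rfl, rfl⟩ | ⟨rfl, rfl⟩)
            · exact ⟨rfl, Or.inl ⟨rfl, rfl⟩⟩
            · exact ⟨rfl, Or.inr ⟨rfl, rfl⟩⟩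
        | insert i J hi ihJ =>
          -- the block over i
          have hblock : Unav (lab (k := k) (d + 1))
              (univ.filter (fun x : Fin (d + 1) → Fin k => x 0 = i)) := by
            refine unav_map (lab (k := k) d) univ _ _ Fin.tail (fun _ _ => mem_univ _) ?_ ?_ ih
            · intro b hb b' hb' hbb
              simp only [mem_filter, mem_univ, true_and] at hb hb'
              exact tail_ne (hb.trans hb'.symm) hbb
            · intro a ha b hb a' ha' b' hb' hab hab'
              simp only [mem_filter, mem_univ, true_and] at ha hb ha' hb'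
              rw [lab_eq (ha.trans hb.symm), lab_eq (ha'.trans hb'.symm), Prod.mk.injEq,
                List.cons.injEq, ha, ha']
              constructor
              · rintro ⟨⟨_, h1⟩, h2⟩
                exact Prod.ext h1 h2
              · intro h
                rw [h]
                exact ⟨⟨rfl, rfl⟩, rfl⟩
          have hun := unav_subst (lab (k := k) (d + 1))
            (univ.filter (fun x : Fin (d + 1) → Fin k => x 0 ∈ J ∨ Fin.tail x = x0))
            (univ.filter (fun x : Fin (d + 1) → Fin k => x 0 = i))
            (Fin.cons i x0) (by simp) (by simp) ?_ ?_ ihJ hblock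
          · have hset : univ.filter (fun x : Fin (d + 1) → Fin k => x 0 ∈ insert i J ∨
                Fin.tail x = x0) =
                univ.filter (fun x : Fin (d + 1) → Fin k => x 0 ∈ J ∨ Fin.tail x = x0) ∪
                univ.filter (fun x : Fin (d + 1) → Fin k => x 0 = i) := by
              ext x
              simp only [mem_filter, mem_univ, true_and, mem_insert, mem_union]
              tauto
            rw [hset]
            exact hun
          · intro u hu huv b hb
            simp only [mem_filter, mem_univ, true_and] at hu hb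
            have hui : u 0 ≠ i := by
              intro h
              rcases hu with h' | h'
              · exact hi (h ▸ h')
              · apply huv
                rw [← Fin.cons_self_tail u, h, h']
            have e1 : u 0 ≠ b 0 := by rw [hb]; exact hui
            have e2 : u 0 ≠ (Fin.cons i x0 : Fin (d + 1) → Fin k) 0 := by simpa using hui
            rw [lab_ne e1, lab_ne e2, lab_ne e1.symm, lab_ne e2.symm, hb]
            exact ⟨rfl, rfl⟩
          · intro b hb b' hb' hbb u hu u' hu' huu
            simp only [mem_filter, mem_univ, true_and] at hb hb' hu hu'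
            rw [lab_eq (hb.trans hb'.symm), hb]
            by_cases h : u 0 = u' 0
            · rw [lab_eq h]
              intro hcon
              have h1 : i = u 0 := by
                have := congrArg Prod.fst hcon
                exact (List.cons.injEq _ _ _ _ ▸ this).1
              rcases hu with h' | h'
              · exact hi (h1 ▸ h')
              · rcases hu' with h'' | h''
                · exact hi (h1.trans h ▸ h'')
                · apply huu
                  rw [← Fin.cons_self_tail u, ← Fin.cons_self_tail u', h, h', h'']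
            · rw [lab_ne h]
              intro hcon
              exact absurd (congrArg Prod.fst hcon) (List.cons_ne_nil _ _)
      have := main univ
      have hset : univ.filter (fun x : Fin (d + 1) → Fin k => x 0 ∈ (univ : Finset (Fin k)) ∨
          Fin.tail x = x0) = univ := by
        ext x
        simp
      rw [hset] at this
      exact this

end H727R2.TP
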